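import Pool.Agent.R717.SBLower
import Pool.Agent.R717.SBUpper

/-!
The minimal order of an admissible quotient of the two strand pure braid group of the closed
orientable surface of genus `b ≥ 2` is `2^(2b+1)`.
-/

namespace Pool.Agent.Results.MP_97f678_al.MinimalQuotients

open Pool.Agent.R717.SB

/-- The orders of the admissible quotients of the pure braid group on two strands of the closed
orientable surface of genus `b`: finite groups `G` with a surjective homomorphism `φ` from the
pure braid group such that the order of `φ (A₁₂)` is at least `2`. -/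
def admissibleOrders (b : ℕ) : Set ℕ :=
  {m | ∃ (G : Type) (_ : Group G) (_ : Finite G) (φ : P2 b →* G),
    Function.Surjective φ ∧ 2 ≤ orderOf (φ (A12 b)) ∧ Nat.card G = m}

theorem result (b : ℕ) (hb : 2 ≤ b) : IsLeast (admissibleOrders b) (2 ^ (2 * b + 1)) := by
  constructor
  · obtain ⟨φ, hφ⟩ := upper hb
    have hne : φ.rangeRestrict (A12 b) ≠ 1 := by
      intro h
      exact hφ (congrArg Subtype.val h)
    have hlow : 2 ^ (2 * b + 1) ≤ Nat.card φ.range := lower_bound hb φ.rangeRestrict hne
    have hup : Nat.card φ.range ≤ 2 ^ (2 * b + 1) := by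
      rw [← Hei.card_hei (n := b)]
      exact Subgroup.card_le_card_group _
    refine ⟨φ.range, inferInstance, inferInstance, φ.rangeRestrict,
      φ.rangeRestrict_surjective, ?_, le_antisymm hup hlow⟩
    have h0 : 0 < orderOf (φ.rangeRestrict (A12 b)) := orderOf_pos _
    have h1 : orderOf (φ.rangeRestrict (A12 b)) ≠ 1 := by
      rw [Ne, orderOf_eq_one_iff]
      exact hne
    omega
  · rintro m ⟨G, hG, hfin, φ, -, hord, rfl⟩
    apply lower_bound hb φ
    intro h
    rw [h, orderOf_one] at hord
    omega

end Pool.Agent.Results.MP_97f678_al.MinimalQuotients
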